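import Pool.Agent.Work.MP_a8fbd7_nt.PAR.LC.Stmts3

/-!
# The theorem in the intervals of Oppermann
-/

set_option autoImplicit false

open Finset

namespace Pool.Agent.Work.MP_a8fbd7_nt.PAR

theorem liouville_one {m : ℕ} (hm : m ≠ 0) :
    ArithmeticFunction.liouville m = 1 ↔ Even (ArithmeticFunction.cardFactors m) := by
  rw [ArithmeticFunction.liouville_apply hm]
  rcases Nat.even_or_odd (ArithmeticFunction.cardFactors m) with h | h
  · rw [h.neg_one_pow]
    exact iff_of_true rfl h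
  · rw [h.neg_one_pow]
    exact iff_of_false (by norm_num) (Nat.not_even_iff_odd.mpr h)

theorem liouville_neg_one {m : ℕ} (hm : m ≠ 0) :
    ArithmeticFunction.liouville m = -1 ↔ Odd (ArithmeticFunction.cardFactors m) := by
  rw [ArithmeticFunction.liouville_apply hm]
  rcases Nat.even_or_odd (ArithmeticFunction.cardFactors m) with h | h
  · rw [h.neg_one_pow]
    exact iff_of_false (by norm_num) (Nat.not_odd_iff_even.mpr h)
  · rw [h.neg_one_pow]
    exact iff_of_true rfl h

/-- the Oppermann form -/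
theorem opp (h : LC.ThmL) : ∀ c : ℝ, 0 < c → ∃ n0 : ℕ, ∀ n a b : ℕ, n0 ≤ n → n ^ 2 - n ≤ a → b ≤ n ^ 2 + n →
    (a : ℝ) + c * n ≤ b →
    (n : ℝ) / Real.log n ^ 18 ≤ (((Icc a b).filter fun m => Even (ArithmeticFunction.cardFactors m)).card : ℝ) ∧
    (n : ℝ) / Real.log n ^ 18 ≤ (((Icc a b).filter fun m => Odd (ArithmeticFunction.cardFactors m)).card : ℝ) := by
  intro c hc
  obtain ⟨x0, hx0⟩ := h (c / 2) (by linarith)
  refine ⟨max (⌈x0⌉₊ + 4) ⌈Real.exp (2 * 3 ^ 17)⌉₊, fun n a b hn ha hb hab => ?_⟩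
  have hn1 : ⌈x0⌉₊ + 4 ≤ n := le_trans (le_max_left _ _) hn
  have hn2 : Real.exp (2 * 3 ^ 17) ≤ n := le_trans (Nat.le_ceil _) (by exact_mod_cast le_trans (le_max_right _ _) hn)
  have hn4 : 4 ≤ n := by omega
  have hnr : (4 : ℝ) ≤ n := by exact_mod_cast hn4
  have hlog : 2 * 3 ^ 17 ≤ Real.log n := by
    rw [Real.le_log_iff_exp_le (by linarith)]
    exact hn2
  have hlogpos : 0 < Real.log n := lt_of_lt_of_le (by norm_num) hlog
  have hnn : n ≤ n ^ 2 := by nlinarith
  have har : (n : ℝ) ^ 2 - n ≤ a := by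
    have : ((n ^ 2 - n : ℕ) : ℝ) ≤ a := by exact_mod_cast ha
    rwa [Nat.cast_sub hnn, Nat.cast_pow] at this
  have hbr : (b : ℝ) ≤ (n : ℝ) ^ 2 + n := by exact_mod_cast hb
  have hapos : (0 : ℝ) < a := by nlinarith
  have hcn : 0 < c * n := by positivity
  have hax0 : x0 ≤ a := by
    have h1 : x0 ≤ ⌈x0⌉₊ := Nat.le_ceil _
    have h2 : ((⌈x0⌉₊ + 4 : ℕ) : ℝ) ≤ n := by exact_mod_cast hn1
    push_cast at h2
    nlinarith
  have hsq1 : Real.sqrt a ≤ 2 * n := by
    rw [Real.sqrt_le_left (by positivity)]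
    nlinarith
  have hsq2 : (n : ℝ) / 2 ≤ Real.sqrt a := by
    refine Real.le_sqrt_of_sq_le ?_
    nlinarith
  have hloga : Real.log a ≤ 3 * Real.log n := by
    have h1 : (a : ℝ) ≤ (n : ℝ) ^ 3 := by
      have h2 : (a : ℝ) ≤ (n : ℝ) ^ 2 + n := by linarith
      nlinarith [sq_nonneg ((n : ℝ) - 2)]
    calc Real.log a ≤ Real.log ((n : ℝ) ^ 3) := Real.log_le_log hapos h1
      _ = _ := by
        rw [Real.log_pow]
        norm_num
  have ha1 : 1 < (a : ℝ) := by nlinarith
  have hlogapos : 0 < Real.log a := Real.log_pos ha1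
  have hlow : (n : ℝ) / Real.log n ^ 18 ≤ Real.sqrt a / Real.log a ^ 17 := by
    rw [div_le_div_iff₀ (by positivity) (by positivity)]
    calc (n : ℝ) * Real.log a ^ 17 ≤ n * (3 * Real.log n) ^ 17 := by gcongr
      _ = (n / 2) * ((2 * 3 ^ 17) * Real.log n ^ 17) := by ring
      _ ≤ Real.sqrt a * (Real.log n * Real.log n ^ 17) := by gcongr
      _ = _ := by ring
  have hsub : Icc ⌈(a : ℝ)⌉₊ ⌊(a : ℝ) + c / 2 * Real.sqrt a⌋₊ ⊆ Icc a b := by
    rw [Nat.ceil_natCast]
    refine Icc_subset_Icc le_rfl ?_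
    refine Nat.floor_le_of_le ?_
    have : c / 2 * Real.sqrt a ≤ c / 2 * (2 * n) := by gcongr
    linarith
  have hgen : ∀ s : ℤ, s = 1 ∨ s = -1 → (n : ℝ) / Real.log n ^ 18 ≤
      (((Icc a b).filter fun m => ArithmeticFunction.liouville m = s).card : ℝ) := by
    intro s hs
    refine le_trans hlow (le_trans (hx0 a hax0 s hs) ?_)
    exact_mod_cast card_le_card (filter_subset_filter _ hsub)
  have ha0 : a ≠ 0 := by
    rintro rfl
    simp at hapos
  constructor
  · have e : (Icc a b).filter (fun m => Even (ArithmeticFunction.cardFactors m)) =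
        (Icc a b).filter (fun m => ArithmeticFunction.liouville m = 1) := by
      refine filter_congr fun m hm => ?_
      rw [mem_Icc] at hm
      exact (liouville_one (by omega)).symm
    rw [e]
    exact hgen 1 (Or.inl rfl)
  · have e : (Icc a b).filter (fun m => Odd (ArithmeticFunction.cardFactors m)) =
        (Icc a b).filter (fun m => ArithmeticFunction.liouville m = -1) := by
      refine filter_congr fun m hm => ?_
      rw [mem_Icc] at hm
      exact (liouville_neg_one (by omega)).symm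
    rw [e]
    exact hgen (-1) (Or.inr rfl)

end Pool.Agent.Work.MP_a8fbd7_nt.PAR
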