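import Pool.Agent.Work.MP_a8fbd7_nt.PAR.MR.All
import Pool.Agent.Work.MP_a8fbd7_nt.PAR.MR.Bridge
import Pool.Agent.Work.MP_a8fbd7_nt.PAR.LC.Fin
import Pool.Agent.Work.MP_a8fbd7_nt.PAR.Opp

/-!
MP_a8fbd7_nt, parity: everything together.  `MR`: the theorem of Matomaki and Radziwill for the Liouville function;
`LC`: local constancy; `thmL`: both parities in every interval `[x, x + c √x]`.
-/

set_option autoImplicit false

namespace Pool.Agent.Work.MP_a8fbd7_nt.PAR

/-- both parities in every interval `[x, x + c √x]` -/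
theorem thmL : LC.ThmL := LC.LC_all (bridge_MRweak MR.all_MRweak)

end Pool.Agent.Work.MP_a8fbd7_nt.PAR
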