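import Pool.Agent.Work.MP_a8fbd7_nt.PAR.All
import Pool.Agent.Work.MP_a8fbd7_nt.PAR.LC.Fin5

/-!
MP_a8fbd7_nt, parity: the better count (exponent `3/4`), without hypotheses.
-/

set_option autoImplicit false

namespace Pool.Agent.Work.MP_a8fbd7_nt.PAR

/-- at least `√x/(log x)^(3/4)` integers of each sign in `[x, x + c √x]` -/
theorem thmR : LC.ThmR := LC.LC_allR (bridge_MRweak MR.all_MRweak)

/-- the Oppermann form -/
theorem oppR : LC.OppR := LC.LC_oppR (bridge_MRweak MR.all_MRweak)

end Pool.Agent.Work.MP_a8fbd7_nt.PAR
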