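import Pool.Agent.Work.MP_a8fbd7_nt.PAR.MR.Defs
import Pool.Agent.Work.MP_a8fbd7_nt.PAR.LC.Defs

/-!
# The conclusion of block MR is the hypothesis of block LC
-/

set_option autoImplicit false

namespace Pool.Agent.Work.MP_a8fbd7_nt.PAR

theorem bridge (h : MR.MRweak) : LC.MRweak := by
  obtain ⟨h0, X0, h1, h2⟩ := h
  refine ⟨h0, X0, h1, fun X hX => ?_⟩
  have h3 := h2 X hX
  have e : ((Finset.Ico X (2 * X)).filter (fun x => ∀ i < h0, LC.lam (x + i) = LC.lam x)) =
      ((Finset.Ico X (2 * X)).filter fun x => ∀ i < h0, MR.lam (x + i) = MR.lam x) := by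
    refine Finset.filter_congr fun x _ => ?_
    unfold LC.lam MR.lam
    simp only [Int.cast_inj]
  rw [e]
  have h4 : (2 : ℝ) * ((Finset.Ico X (2 * X)).filter fun x => ∀ i < h0, MR.lam (x + i) = MR.lam x).card ≤ X := by
    linarith
  exact_mod_cast h4

end Pool.Agent.Work.MP_a8fbd7_nt.PAR
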