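import Mathlib
import Pool.Agent.Work.MP_a8fbd7_nt.ZF.Stmts

/-!
# The prime number theorem for the Liouville function, with a saving of every power of the logarithm

`StLio` : for every `A > 0` there is `C` with `|∑_{n ≤ y} λ(n)| ≤ C y / (log y) ^ A` for `y ≥ 2`.  It follows from `ZF.StUn` at `t = 0`
(the prime number theorem with the same saving), by the identity `λ · log = λ * (λ · Λ)` and induction on `A`.
-/

set_option autoImplicit false

open Finset

noncomputable section

namespace Pool.Agent.Work.MP_a8fbd7_nt.PAR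

/-- the Liouville function with real values -/
def lam (n : ℕ) : ℝ := ((ArithmeticFunction.liouville n : ℤ) : ℝ)

/-- partial sums of the Liouville function -/
def Lsum (N : ℕ) : ℝ := ∑ n ∈ Finset.Ioc 0 N, lam n

/-- `∑_{n ≤ y} λ(n) = O(y (log y)^{-A})` -/
def StLio : Prop := ∀ A : ℝ, 0 < A → ∃ C : ℝ, 1 ≤ C ∧ ∀ y : ℝ, 2 ≤ y →
  |∑ n ∈ Finset.Icc 1 ⌊y⌋₊, lam n| ≤ C * y / Real.log y ^ A

/-- `∑_{x < n ≤ y} λ(n) n^{-it} = O((1 + |t|) y (log y)^{-A})` -/
def StLit : Prop := ∀ A : ℝ, 0 < A → ∃ C : ℝ, 1 ≤ C ∧ ∀ x y t : ℝ, 2 ≤ y → 0 ≤ x → x ≤ y →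
  ‖∑ n ∈ Finset.Ioc ⌊x⌋₊ ⌊y⌋₊, (lam n : ℂ) * (n : ℂ) ^ (-(t * Complex.I))‖ ≤ C * (1 + |t|) * y / Real.log y ^ A

/-- `∑_{x < n ≤ y} λ(n) n^{-1-it} = O((1 + |t|) (log x)^{-A})` -/
def StLio1 : Prop := ∀ A : ℝ, 0 < A → ∃ C : ℝ, 1 ≤ C ∧ ∀ x y t : ℝ, 2 ≤ x → x ≤ y → y ≤ x ^ (2 : ℝ) →
  ‖∑ n ∈ Finset.Ioc ⌊x⌋₊ ⌊y⌋₊, (lam n : ℂ) * (n : ℂ) ^ (-(1 + t * Complex.I))‖ ≤ C * (1 + |t|) / Real.log x ^ A

namespace Lio

theorem lam_zero : lam 0 = 0 := by simp [lam]

theorem lam_one : lam 1 = 1 := by simp [lam, ArithmeticFunction.liouville_apply_one]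

theorem lam_mul (m n : ℕ) : lam (m * n) = lam m * lam n := by
  simp [lam, ArithmeticFunction.liouville_apply_mul]

theorem lam_pow (m k : ℕ) : lam (m ^ k) = lam m ^ k := by
  induction k with
  | zero => simp [lam_one]
  | succ k ih => rw [pow_succ, lam_mul, ih, pow_succ]

theorem lam_val {n : ℕ} (hn : n ≠ 0) : lam n = (-1) ^ (ArithmeticFunction.cardFactors n) := by
  simp [lam, ArithmeticFunction.liouville_apply hn]

theorem abs_lam_le (n : ℕ) : |lam n| ≤ 1 := by
  rcases eq_or_ne n 0 with rfl | hn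
  · simp [lam_zero]
  · rw [lam_val hn, abs_pow, abs_neg, abs_one, one_pow]

theorem lam_prime {p : ℕ} (hp : p.Prime) : lam p = -1 := by
  rw [lam_val hp.ne_zero, ArithmeticFunction.cardFactors_apply_prime hp, pow_one]

theorem abs_Lsum_le (N : ℕ) : |Lsum N| ≤ N := by
  calc |Lsum N| ≤ ∑ n ∈ Finset.Ioc 0 N, |lam n| := Finset.abs_sum_le_sum_abs _ _
    _ ≤ ∑ n ∈ Finset.Ioc 0 N, (1 : ℝ) := Finset.sum_le_sum fun n _ => abs_lam_le n
    _ = N := by simp

/-! ### Dirichlet convolutions of functions -/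

/-- the arithmetic function given by the values of a function at positive integers -/
def af (f : ℕ → ℝ) : ArithmeticFunction ℝ := ⟨fun n => if n = 0 then 0 else f n, by simp⟩

theorem af_apply (f : ℕ → ℝ) {n : ℕ} (hn : n ≠ 0) : af f n = f n := by
  simp [af, hn]

/-- the sum of a Dirichlet convolution -/
def T (f g : ℕ → ℝ) (N : ℕ) : ℝ := ∑ n ∈ Finset.Ioc 0 N, ∑ x ∈ n.divisorsAntidiagonal, f x.1 * g x.2

theorem T_eq_af (f g : ℕ → ℝ) (N : ℕ) : T f g N = ∑ n ∈ Finset.Ioc 0 N, (af f * af g) n := by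
  unfold T
  refine Finset.sum_congr rfl fun n _ => ?_
  rw [ArithmeticFunction.mul_apply]
  refine Finset.sum_congr rfl fun x hx => ?_
  rw [Nat.mem_divisorsAntidiagonal] at hx
  have h1 : x.1 ≠ 0 := by rintro h; apply hx.2; rw [← hx.1, h, zero_mul]
  have h2 : x.2 ≠ 0 := by rintro h; apply hx.2; rw [← hx.1, h, mul_zero]
  rw [af_apply f h1, af_apply g h2]

theorem T_left (f g : ℕ → ℝ) (N : ℕ) :
    T f g N = ∑ a ∈ Finset.Ioc 0 N, f a * ∑ b ∈ Finset.Ioc 0 (N / a), g b := by
  rw [T_eq_af, ArithmeticFunction.sum_Ioc_mul_eq_sum_sum]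
  refine Finset.sum_congr rfl fun n hn => ?_
  rw [Finset.mem_Ioc] at hn
  rw [af_apply f (by omega)]
  congr 1
  refine Finset.sum_congr rfl fun m hm => ?_
  rw [Finset.mem_Ioc] at hm
  rw [af_apply g (by omega)]

theorem T_right (f g : ℕ → ℝ) (N : ℕ) :
    T f g N = ∑ b ∈ Finset.Ioc 0 N, g b * ∑ a ∈ Finset.Ioc 0 (N / b), f a := by
  rw [T_eq_af, mul_comm, ArithmeticFunction.sum_Ioc_mul_eq_sum_sum]
  refine Finset.sum_congr rfl fun n hn => ?_
  rw [Finset.mem_Ioc] at hn
  rw [af_apply g (by omega)]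
  congr 1
  refine Finset.sum_congr rfl fun m hm => ?_
  rw [Finset.mem_Ioc] at hm
  rw [af_apply f (by omega)]

theorem T_add (f g h : ℕ → ℝ) (N : ℕ) : T f (fun n => g n + h n) N = T f g N + T f h N := by
  simp only [T, mul_add, Finset.sum_add_distrib]

/-! ### Squares -/

theorem card_sq (N : ℕ) : ((Finset.Ioc 0 N).filter (fun n => IsSquare n)).card ≤ Nat.sqrt N := by
  have h : (Finset.Ioc 0 N).filter (fun n => IsSquare n) ⊆ (Finset.Ioc 0 (Nat.sqrt N)).image (fun k => k * k) := by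
    intro n hn
    rw [Finset.mem_filter, Finset.mem_Ioc] at hn
    obtain ⟨⟨h1, h2⟩, k, rfl⟩ := hn
    rw [Finset.mem_image]
    refine ⟨k, ?_, rfl⟩
    rw [Finset.mem_Ioc]
    refine ⟨?_, Nat.le_sqrt.mpr h2⟩
    rcases Nat.eq_zero_or_pos k with rfl | h0
    · omega
    · exact h0
  calc _ ≤ _ := Finset.card_le_card h
    _ ≤ _ := Finset.card_image_le
    _ = _ := by simp

theorem sum_sq_le (F : ℕ → ℝ) (N : ℕ) (K : ℝ) (hK : 0 ≤ K) (h1 : ∀ n ∈ Finset.Ioc 0 N, |F n| ≤ K)
    (h2 : ∀ n ∈ Finset.Ioc 0 N, ¬ IsSquare n → F n = 0) :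
    |∑ n ∈ Finset.Ioc 0 N, F n| ≤ K * Real.sqrt N := by
  calc |∑ n ∈ Finset.Ioc 0 N, F n| = |∑ n ∈ (Finset.Ioc 0 N).filter (fun n => IsSquare n), F n| := by
        rw [Finset.sum_filter]
        congr 1
        refine Finset.sum_congr rfl fun n hn => ?_
        split_ifs with h
        · rfl
        · exact h2 n hn h
    _ ≤ ∑ n ∈ (Finset.Ioc 0 N).filter (fun n => IsSquare n), |F n| := Finset.abs_sum_le_sum_abs _ _
    _ ≤ ∑ n ∈ (Finset.Ioc 0 N).filter (fun n => IsSquare n), K := by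
        refine Finset.sum_le_sum fun n hn => h1 n (Finset.mem_filter.mp hn).1
    _ = ((Finset.Ioc 0 N).filter (fun n => IsSquare n)).card * K := by simp
    _ ≤ Real.sqrt N * K := by
        gcongr
        refine le_trans (Nat.cast_le.mpr (card_sq N)) ?_
        exact Real.nat_sqrt_le_real_sqrt
    _ = _ := mul_comm _ _

/-- `∑_{d ∣ n} λ(d)` is zero unless `n` is a square, and at most one -/
theorem sum_lam_divisors {n : ℕ} (hn : n ≠ 0) :
    |∑ d ∈ n.divisors, lam d| ≤ 1 ∧ (¬ IsSquare n → ∑ d ∈ n.divisors, lam d = 0) := by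
  -- multiplicativity
  let g : ArithmeticFunction ℝ := (ArithmeticFunction.liouville : ArithmeticFunction ℤ) * (ArithmeticFunction.zeta : ArithmeticFunction ℝ)
  have hg : g.IsMultiplicative := by
    refine ArithmeticFunction.IsMultiplicative.mul ?_ ?_
    · exact ArithmeticFunction.IsMultiplicative.intCast ArithmeticFunction.isMultiplicative_liouville
    · exact ArithmeticFunction.IsMultiplicative.natCast ArithmeticFunction.isMultiplicative_zeta
  have hgn : ∀ m : ℕ, g m = ∑ d ∈ m.divisors, lam d := by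
    intro m
    simp only [g]
    rw [ArithmeticFunction.coe_mul_zeta_apply]
    rfl
  have hpp : ∀ p k : ℕ, p.Prime → g (p ^ k) = if Even k then 1 else 0 := by
    intro p k hp
    rw [hgn, Nat.sum_divisors_prime_pow hp]
    simp only [lam_pow, lam_prime hp]
    induction k with
    | zero => simp
    | succ k ih =>
      rw [Finset.sum_range_succ, ih]
      by_cases h : Even k
      · have h' : ¬ Even (k + 1) := by rwa [Nat.even_add_one, not_not]
        have h3 : Odd (k + 1) := Nat.not_even_iff_odd.mp h'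
        rw [if_pos h, if_neg h', h3.neg_one_pow]
        norm_num
      · have h' : Even (k + 1) := by rwa [Nat.even_add_one]
        rw [if_neg h, if_pos h', h'.neg_one_pow]
        norm_num
  rw [← hgn, hg.multiplicative_factorization g hn]
  constructor
  · rw [Finsupp.prod, Finset.abs_prod]
    refine Finset.prod_le_one (fun _ _ => abs_nonneg _) fun p hp => ?_
    have hpr : p.Prime := Nat.prime_of_mem_primeFactors (by simpa using hp)
    rw [hpp p _ hpr]
    split_ifs <;> simp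
  · intro hsq
    by_contra hne
    apply hsq
    rw [Finsupp.prod] at hne
    replace hne := Finset.prod_ne_zero_iff.mp hne
    have hev : ∀ p ∈ n.factorization.support, Even (n.factorization p) := by
      intro p hp
      have hpr : p.Prime := Nat.prime_of_mem_primeFactors (by simpa using hp)
      have h := hne p hp
      rw [hpp p _ hpr] at h
      by_contra hodd
      rw [if_neg hodd] at h
      exact h rfl
    rw [← Nat.prod_factorization_pow_eq_self hn, Finsupp.prod]
    refine Finset.isSquare_prod _ fun p hp => ?_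
    obtain ⟨j, hj⟩ := hev p hp
    exact ⟨p ^ j, by rw [hj, pow_add]⟩

theorem T_lam_one (N : ℕ) : |T lam (fun _ => 1) N| ≤ Real.sqrt N := by
  unfold T
  have h : ∀ n : ℕ, ∑ x ∈ n.divisorsAntidiagonal, lam x.1 * 1 = ∑ d ∈ n.divisors, lam d := by
    intro n
    simp only [mul_one]
    exact Nat.sum_divisorsAntidiagonal (fun d _ => lam d)
  simp only [h]
  have := sum_sq_le (fun n => ∑ d ∈ n.divisors, lam d) N 1 (by norm_num) (fun n hn => ?_) (fun n hn => ?_)
  · simpa using this
  · rw [Finset.mem_Ioc] at hn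
    exact (sum_lam_divisors (by omega)).1
  · rw [Finset.mem_Ioc] at hn
    exact (sum_lam_divisors (by omega)).2

/-- the function `λ(b) Λ(b)` -/
def lv (b : ℕ) : ℝ := lam b * ArithmeticFunction.vonMangoldt b

theorem T_lam_lv (N : ℕ) : T lam lv N = ∑ n ∈ Finset.Ioc 0 N, lam n * Real.log n := by
  unfold T
  refine Finset.sum_congr rfl fun n hn => ?_
  have h : ∀ x ∈ n.divisorsAntidiagonal, lam x.1 * lv x.2 = lam n * ArithmeticFunction.vonMangoldt x.2 := by
    intro x hx
    rw [Nat.mem_divisorsAntidiagonal] at hx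
    rw [lv, ← mul_assoc, ← lam_mul, hx.1]
  rw [Finset.sum_congr rfl h, ← Finset.mul_sum,
    Nat.sum_divisorsAntidiagonal' (fun _ d => (ArithmeticFunction.vonMangoldt d : ℝ)), ArithmeticFunction.vonMangoldt_sum]

/-- the function `r(b) = λ(b) Λ(b) + 1` -/
def r (b : ℕ) : ℝ := lv b + 1

/-- the partial sums of `r` -/
def R (M : ℕ) : ℝ := ∑ b ∈ Finset.Ioc 0 M, r b

theorem lv_add_von (b : ℕ) (hb : b ≠ 0) (hsq : ¬ IsSquare b) : lv b + ArithmeticFunction.vonMangoldt b = 0 := by
  by_cases hp : IsPrimePow b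
  · obtain ⟨p, k, hp, hk, rfl⟩ := hp
    have hpr : p.Prime := hp.nat_prime
    have hodd : Odd k := by
      by_contra hev
      rw [Nat.not_odd_iff_even] at hev
      obtain ⟨j, rfl⟩ := hev
      exact hsq ⟨p ^ j, by rw [pow_add]⟩
    rw [lv, lam_pow, lam_prime hpr, hodd.neg_one_pow]
    ring
  · have h0 : (ArithmeticFunction.vonMangoldt b : ℝ) = 0 := ArithmeticFunction.vonMangoldt_eq_zero_iff.mpr hp
    rw [lv, h0]
    ring

theorem abs_r_le (b : ℕ) : |r b| ≤ 1 + Real.log b := by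
  unfold r lv
  have h1 : 0 ≤ (ArithmeticFunction.vonMangoldt b : ℝ) := ArithmeticFunction.vonMangoldt_nonneg
  have h2 : (ArithmeticFunction.vonMangoldt b : ℝ) ≤ Real.log b := ArithmeticFunction.vonMangoldt_le_log
  calc |lam b * ArithmeticFunction.vonMangoldt b + 1| ≤ |lam b * ArithmeticFunction.vonMangoldt b| + |(1 : ℝ)| := abs_add_le _ _
    _ ≤ 1 * Real.log b + 1 := by
        rw [abs_mul, abs_of_nonneg h1, abs_one]
        have h3 := abs_lam_le b
        gcongr
    _ = _ := by ring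

theorem R_bound (M : ℕ) : |R M| ≤ 2 * Real.log M * Real.sqrt M + |∑ b ∈ Finset.Ioc 0 M, (ArithmeticFunction.vonMangoldt b : ℝ) - M| := by
  have h : R M = (∑ b ∈ Finset.Ioc 0 M, (lv b + ArithmeticFunction.vonMangoldt b)) -
      (∑ b ∈ Finset.Ioc 0 M, (ArithmeticFunction.vonMangoldt b : ℝ) - M) := by
    unfold R r
    rw [Finset.sum_add_distrib, Finset.sum_add_distrib]
    simp
    ring
  rw [h]
  refine le_trans (abs_sub _ _) ?_
  gcongr
  refine sum_sq_le _ M (2 * Real.log M) ?_ (fun n hn => ?_) (fun n hn => ?_)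
  · rcases Nat.eq_zero_or_pos M with rfl | h0
    · simp
    · have : (1 : ℝ) ≤ M := by exact_mod_cast h0
      have := Real.log_nonneg this
      linarith
  · rw [Finset.mem_Ioc] at hn
    have h1 : 0 ≤ (ArithmeticFunction.vonMangoldt n : ℝ) := ArithmeticFunction.vonMangoldt_nonneg
    have h2 : (ArithmeticFunction.vonMangoldt n : ℝ) ≤ Real.log n := ArithmeticFunction.vonMangoldt_le_log
    have h3 := abs_lam_le n
    have h4 : Real.log n ≤ Real.log M := Real.log_le_log (by exact_mod_cast hn.1) (by exact_mod_cast hn.2)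
    calc |lv n + ArithmeticFunction.vonMangoldt n| ≤ |lv n| + |(ArithmeticFunction.vonMangoldt n : ℝ)| := abs_add_le _ _
      _ ≤ 1 * Real.log n + Real.log n := by
          rw [lv, abs_mul, abs_of_nonneg h1]
          gcongr
      _ ≤ _ := by linarith
  · rw [Finset.mem_Ioc] at hn
    exact lv_add_von n (by omega)

/-! ### The function `1 + log x` -/

/-- `1 + log x` -/
def ell (x : ℝ) : ℝ := 1 + Real.log x

theorem one_le_ell {x : ℝ} (hx : 1 ≤ x) : 1 ≤ ell x := by
  have := Real.log_nonneg hx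
  unfold ell
  linarith

theorem ell_mono {x y : ℝ} (hx : 0 < x) (h : x ≤ y) : ell x ≤ ell y := by
  have := Real.log_le_log hx h
  unfold ell
  linarith

theorem ell_pow (A : ℝ) (hA : 0 ≤ A) : ∃ C : ℝ, 1 ≤ C ∧ ∀ x : ℝ, 1 ≤ x → ell x ^ A ≤ C * x ^ (1 / 4 : ℝ) := by
  refine ⟨(4 * (A + 1)) ^ (A + 1), ?_, ?_⟩
  · exact Real.one_le_rpow (by linarith) (by linarith)
  · intro x hx
    set ε : ℝ := 1 / (4 * (A + 1)) with hε
    have hε0 : 0 < ε := by positivity
    have hε1 : ε ≤ 1 := by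
      rw [hε, div_le_one (by positivity)]
      linarith
    have hl := Real.log_nonneg hx
    have h1 : 1 + ε * Real.log x ≤ x ^ ε := by
      have := Real.add_one_le_exp (ε * Real.log x)
      rw [Real.rpow_def_of_pos (by linarith), mul_comm (Real.log x)]
      linarith
    have h2 : ell x ≤ (4 * (A + 1)) * x ^ ε := by
      have h3 : ε * ell x ≤ x ^ ε := by
        unfold ell
        nlinarith
      calc ell x = (4 * (A + 1)) * (ε * ell x) := by
            rw [hε]
            field_simp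
        _ ≤ _ := by gcongr
    have h4 := one_le_ell hx
    calc ell x ^ A ≤ ell x ^ (A + 1) := Real.rpow_le_rpow_of_exponent_le h4 (by linarith)
      _ ≤ ((4 * (A + 1)) * x ^ ε) ^ (A + 1) := Real.rpow_le_rpow (by linarith) h2 (by linarith)
      _ = (4 * (A + 1)) ^ (A + 1) * x ^ (1 / 4 : ℝ) := by
        rw [Real.mul_rpow (by positivity) (by positivity), ← Real.rpow_mul (by linarith)]
        congr 2
        rw [hε]
        field_simp

/-- `√x log x ≤ C x / (1 + log x)^A` -/
theorem sqrt_log_le (A : ℝ) (hA : 0 ≤ A) : ∃ C : ℝ, 1 ≤ C ∧ ∀ x : ℝ, 1 ≤ x → Real.sqrt x * ell x ≤ C * x / ell x ^ A := by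
  obtain ⟨C, hC, h⟩ := ell_pow (A + 1) (by linarith)
  refine ⟨C, hC, fun x hx => ?_⟩
  have h4 := one_le_ell hx
  have hpos : 0 < ell x ^ A := Real.rpow_pos_of_pos (by linarith) _
  rw [le_div_iff₀ hpos]
  calc Real.sqrt x * ell x * ell x ^ A = Real.sqrt x * ell x ^ (A + 1) := by
        rw [Real.rpow_add (by linarith), Real.rpow_one]
        ring
    _ ≤ Real.sqrt x * (C * x ^ (1 / 4 : ℝ)) := by
        gcongr
        exact h x hx
    _ = C * (x ^ (1 / 2 : ℝ) * x ^ (1 / 4 : ℝ)) := by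
        rw [Real.sqrt_eq_rpow]
        ring
    _ ≤ C * x := by
        rw [← Real.rpow_add (by linarith)]
        gcongr
        calc x ^ ((1 : ℝ) / 2 + 1 / 4) ≤ x ^ (1 : ℝ) := Real.rpow_le_rpow_of_exponent_le hx (by norm_num)
          _ = x := Real.rpow_one x

theorem sqrt_le (A : ℝ) (hA : 0 ≤ A) : ∃ C : ℝ, 1 ≤ C ∧ ∀ x : ℝ, 1 ≤ x → Real.sqrt x ≤ C * x / ell x ^ A := by
  obtain ⟨C, hC, h⟩ := sqrt_log_le A hA
  refine ⟨C, hC, fun x hx => le_trans ?_ (h x hx)⟩
  have h4 := one_le_ell hx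
  have := Real.sqrt_nonneg x
  nlinarith

theorem ell_le_log {x : ℝ} (hx : 2 ≤ x) : ell x ≤ 3 * Real.log x := by
  have h1 := Real.log_two_gt_d9
  have h2 : Real.log 2 ≤ Real.log x := Real.log_le_log (by norm_num) hx
  unfold ell
  linarith

/-- the prime number theorem with error in terms of `1 + log` -/
theorem pnt (h : ZF.StUn) (A : ℝ) (hA : 0 < A) : ∃ C : ℝ, 1 ≤ C ∧ ∀ M : ℕ, 1 ≤ M →
    |∑ b ∈ Finset.Ioc 0 M, (ArithmeticFunction.vonMangoldt b : ℝ) - M| ≤ C * M / ell M ^ A := by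
  obtain ⟨C, hC, h⟩ := h A 1 hA one_pos
  obtain ⟨C1, hC1, h1⟩ := sqrt_le A hA.le
  refine ⟨3 ^ A * C + C1, by have : (0 : ℝ) < 3 ^ A * C := by positivity
                             linarith, fun M hM => ?_⟩
  have hM1 : (1 : ℝ) ≤ M := by exact_mod_cast hM
  have h4 := one_le_ell hM1
  have hpos : 0 < ell M ^ A := Real.rpow_pos_of_pos (by linarith) _
  have h5 : (1 : ℝ) ≤ C1 * M / ell M ^ A := by
    refine le_trans ?_ (h1 M hM1)
    exact Real.one_le_sqrt.mpr hM1
  have e0 : (3 ^ A * C + C1) * M / ell M ^ A = 3 ^ A * C * M / ell M ^ A + C1 * M / ell M ^ A := by ring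
  rw [e0]
  rcases Nat.lt_or_ge M 2 with h2 | h2
  · obtain rfl : M = 1 := by omega
    have h6 : 0 ≤ 3 ^ A * C * ((1 : ℕ) : ℝ) / ell ((1 : ℕ) : ℝ) ^ A := by positivity
    have h7 : Finset.Ioc 0 1 = {1} := by decide
    rw [h7, Finset.sum_singleton, ArithmeticFunction.vonMangoldt_apply_one]
    have h8 : |(0 : ℝ) - ((1 : ℕ) : ℝ)| = 1 := by norm_num
    rw [h8]
    linarith
  · have hM2 : (2 : ℝ) ≤ M := by exact_mod_cast h2
    have h6 := h M 0 hM2 (by simp)
    have e1 : ZF.Ls M 0 = ((∑ b ∈ Finset.Ioc 0 M, (ArithmeticFunction.vonMangoldt b : ℝ) : ℝ) : ℂ) := by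
      unfold ZF.Ls
      rw [Nat.floor_natCast]
      push_cast
      simp
      rfl
    have e2 : (∫ u in (1 : ℝ)..M, (u : ℂ) ^ (-(((0 : ℝ) : ℂ) * Complex.I))) = ((M - 1 : ℝ) : ℂ) := by
      simp
    rw [e1, e2, ← Complex.ofReal_sub, Complex.norm_real, Real.norm_eq_abs] at h6
    have h7 : C * M / Real.log M ^ A ≤ 3 ^ A * C * M / ell M ^ A := by
      have hlog : 0 < Real.log M := Real.log_pos (by linarith)
      rw [div_le_div_iff₀ (Real.rpow_pos_of_pos hlog _) hpos]
      have h8 : ell M ^ A ≤ 3 ^ A * Real.log M ^ A := by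
        rw [← Real.mul_rpow (by norm_num) hlog.le]
        exact Real.rpow_le_rpow (by linarith) (ell_le_log hM2) hA.le
      calc C * M * ell M ^ A ≤ C * M * (3 ^ A * Real.log M ^ A) := by gcongr
        _ = _ := by ring
    have h9 : |∑ b ∈ Finset.Ioc 0 M, (ArithmeticFunction.vonMangoldt b : ℝ) - M| ≤
        |∑ b ∈ Finset.Ioc 0 M, (ArithmeticFunction.vonMangoldt b : ℝ) - (M - 1)| + |(1 : ℝ)| := by
      have e3 : ∑ b ∈ Finset.Ioc 0 M, (ArithmeticFunction.vonMangoldt b : ℝ) - M =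
        (∑ b ∈ Finset.Ioc 0 M, (ArithmeticFunction.vonMangoldt b : ℝ) - (M - 1)) - 1 := by ring
      rw [e3]
      exact abs_sub _ _
    rw [abs_one] at h9
    linarith

theorem R_small (h : ZF.StUn) (A : ℝ) (hA : 0 < A) : ∃ C : ℝ, 1 ≤ C ∧ ∀ M : ℕ, 1 ≤ M → |R M| ≤ C * M / ell M ^ A := by
  obtain ⟨C, hC, h⟩ := pnt h A hA
  obtain ⟨C1, hC1, h1⟩ := sqrt_log_le A hA.le
  refine ⟨C + 2 * C1, by linarith, fun M hM => ?_⟩
  have hM1 : (1 : ℝ) ≤ M := by exact_mod_cast hM
  have h2 := R_bound M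
  have h3 := h M hM
  have h4 := h1 M hM1
  have h5 : 2 * Real.log M * Real.sqrt M ≤ 2 * (Real.sqrt M * ell M) := by
    unfold ell
    have := Real.sqrt_nonneg (M : ℝ)
    nlinarith
  have e0 : (C + 2 * C1) * M / ell M ^ A = C * M / ell M ^ A + 2 * (C1 * M / ell M ^ A) := by ring
  rw [e0]
  linarith

/-! ### Partial summation -/

theorem Lsum_zero : Lsum 0 = 0 := by simp [Lsum]

theorem Lsum_succ (N : ℕ) : Lsum (N + 1) = Lsum N + lam (N + 1) := by
  unfold Lsum
  rw [Finset.sum_Ioc_succ_top (by omega)]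

theorem abel {E : Type*} [AddCommGroup E] [Module ℝ E] (φ : ℕ → E) (M N : ℕ) (hMN : M ≤ N) :
    ∑ n ∈ Finset.Ioc M N, lam n • φ n = Lsum N • φ N - Lsum M • φ M - ∑ n ∈ Finset.Ico M N, Lsum n • (φ (n + 1) - φ n) := by
  induction N, hMN using Nat.le_induction with
  | base => simp
  | succ N hN ih =>
    rw [Finset.sum_Ioc_succ_top (by omega), Finset.sum_Ico_succ_top hN, ih, Lsum_succ]
    simp only [add_smul, smul_sub]
    abel

theorem sum_inv_ell (B : ℝ) (hB : 0 ≤ B) : ∃ C : ℝ, 1 ≤ C ∧ ∀ N : ℕ, 1 ≤ N →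
    ∑ n ∈ Finset.Ico 1 N, 1 / ell n ^ B ≤ C * N / ell N ^ B := by
  obtain ⟨C1, hC1, h1⟩ := sqrt_le B hB
  refine ⟨C1 + 2 ^ B, by have : (0 : ℝ) < 2 ^ B := by positivity
                         linarith, fun N hN => ?_⟩
  have hN1 : (1 : ℝ) ≤ N := by exact_mod_cast hN
  have hposN : 0 < ell N ^ B := Real.rpow_pos_of_pos (by have := one_le_ell hN1; linarith) _
  have hterm : ∀ n ∈ Finset.Ico 1 N, 1 / ell n ^ B ≤ (if n * n ≤ N then (1 : ℝ) else 0) + 2 ^ B / ell N ^ B := by
    intro n hn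
    rw [Finset.mem_Ico] at hn
    have hn1 : (1 : ℝ) ≤ n := by exact_mod_cast hn.1
    have he := one_le_ell hn1
    have hpos : 0 < ell n ^ B := Real.rpow_pos_of_pos (by linarith) _
    split_ifs with h
    · have h3 : 1 / ell n ^ B ≤ 1 := by
        rw [div_le_one hpos]
        exact Real.one_le_rpow he hB
      have : 0 ≤ 2 ^ B / ell N ^ B := by positivity
      linarith
    · rw [zero_add, div_le_div_iff₀ hpos hposN, one_mul, ← Real.mul_rpow (by norm_num) (by linarith)]
      refine Real.rpow_le_rpow (by have := one_le_ell hN1; linarith) ?_ hB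
      have h3 : (N : ℝ) ≤ n ^ 2 := by
        have : N ≤ n ^ 2 := by rw [pow_two]; omega
        exact_mod_cast this
      have h4 : Real.log N ≤ 2 * Real.log n := by
        calc Real.log N ≤ Real.log ((n : ℝ) ^ 2) := Real.log_le_log (by linarith) h3
          _ = _ := by rw [Real.log_pow]; norm_num
      unfold ell
      linarith
  calc ∑ n ∈ Finset.Ico 1 N, 1 / ell n ^ B ≤ ∑ n ∈ Finset.Ico 1 N, ((if n * n ≤ N then (1 : ℝ) else 0) + 2 ^ B / ell N ^ B) :=
        Finset.sum_le_sum hterm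
    _ = ((Finset.Ico 1 N).filter (fun n => n * n ≤ N)).card + (Finset.Ico 1 N).card * (2 ^ B / ell N ^ B) := by
        rw [Finset.sum_add_distrib, ← Finset.sum_filter]
        simp
    _ ≤ Real.sqrt N + N * (2 ^ B / ell N ^ B) := by
        have hc : ((Finset.Ico 1 N).filter (fun n => n * n ≤ N)).card ≤ Nat.sqrt N := by
          have : (Finset.Ico 1 N).filter (fun n => n * n ≤ N) ⊆ Finset.Ioc 0 (Nat.sqrt N) := by
            intro n hn
            rw [Finset.mem_filter, Finset.mem_Ico] at hn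
            rw [Finset.mem_Ioc]
            exact ⟨by omega, Nat.le_sqrt.mpr hn.2⟩
          refine le_trans (Finset.card_le_card this) ?_
          simp
        gcongr
        · exact le_trans (Nat.cast_le.mpr hc) Real.nat_sqrt_le_real_sqrt
        · simp
    _ ≤ C1 * N / ell N ^ B + N * (2 ^ B / ell N ^ B) := by
        gcongr
        exact h1 N hN1
    _ = _ := by ring

theorem log_step {n : ℕ} (hn : 1 ≤ n) : |Real.log ((n + 1 : ℕ) : ℝ) - Real.log n| ≤ 1 / n := by
  have h1 : (0 : ℝ) < n := by exact_mod_cast hn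
  have h2 : (0 : ℝ) < ((n + 1 : ℕ) : ℝ) := by positivity
  rw [← Real.log_div h2.ne' h1.ne', abs_of_nonneg (Real.log_nonneg (by rw [le_div_iff₀ h1]; push_cast; linarith))]
  calc Real.log (((n + 1 : ℕ) : ℝ) / n) ≤ ((n + 1 : ℕ) : ℝ) / n - 1 := Real.log_le_sub_one_of_pos (by positivity)
    _ = 1 / n := by
      push_cast
      field_simp
      ring

/-! ### The induction -/

/-- the bound with exponent `B` -/
def PB (B : ℝ) : Prop := ∃ C : ℝ, 1 ≤ C ∧ ∀ N : ℕ, 1 ≤ N → |Lsum N| ≤ C * N / ell N ^ B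

theorem PB_zero : PB 0 := ⟨1, le_rfl, fun N _ => by
  have := abs_Lsum_le N
  simpa using this⟩

theorem PB_mono {A B : ℝ} (hAB : A ≤ B) (h : PB B) : PB A := by
  obtain ⟨C, hC, h⟩ := h
  refine ⟨C, hC, fun N hN => le_trans (h N hN) ?_⟩
  have hN1 : (1 : ℝ) ≤ N := by exact_mod_cast hN
  have he := one_le_ell hN1
  have hpos : 0 < ell N ^ A := Real.rpow_pos_of_pos (by linarith) _
  gcongr

theorem fourth {x : ℝ} (hx : 16 ≤ x) : 2 ≤ x ^ (1 / 4 : ℝ) ∧ (x ^ (1 / 4 : ℝ)) ^ 4 = x ∧ x ^ (1 / 2 : ℝ) = (x ^ (1 / 4 : ℝ)) ^ 2 := by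
  have h0 : (0 : ℝ) ≤ x := by linarith
  refine ⟨?_, ?_, ?_⟩
  · have h1 : (16 : ℝ) ^ (1 / 4 : ℝ) = 2 := by
      rw [show (16 : ℝ) = 2 ^ (4 : ℝ) by norm_num, ← Real.rpow_mul (by norm_num)]
      norm_num
    rw [← h1]
    exact Real.rpow_le_rpow (by norm_num) hx (by norm_num)
  · rw [← Real.rpow_natCast, ← Real.rpow_mul h0]
    norm_num
  · rw [← Real.rpow_natCast, ← Real.rpow_mul h0]
    norm_num

theorem harmonic_le (Z : ℕ) : ∑ b ∈ Finset.Ioc 0 Z, 1 / (b : ℝ) ≤ ell Z := by
  have h := harmonic_le_one_add_log Z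
  rw [harmonic_eq_sum_Icc] at h
  push_cast at h
  unfold ell
  refine le_trans (le_of_eq ?_) h
  refine Finset.sum_congr ?_ fun n _ => by rw [one_div]
  rfl

/-- split of the convolution sum -/
theorem split_bound (N Z : ℕ) :
    |T lam r N| ≤ ∑ b ∈ (Finset.Ioc 0 N).filter (fun b => b ≤ Z), |r b| * |Lsum (N / b)| +
      ∑ a ∈ (Finset.Ioc 0 N).filter (fun a => Z < N / a), (|R (N / a)| + |R Z|) := by
  have e1 : r = fun n => (if n ≤ Z then r n else 0) + (if n ≤ Z then 0 else r n) := by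
    funext n
    split_ifs <;> simp
  have e2 : T lam r N = T lam (fun n => if n ≤ Z then r n else 0) N + T lam (fun n => if n ≤ Z then 0 else r n) N := by
    conv_lhs => rw [e1]
    exact T_add _ _ _ _
  rw [e2, T_right, T_left]
  refine le_trans (abs_add_le _ _) (add_le_add ?_ ?_)
  · refine le_trans (Finset.abs_sum_le_sum_abs _ _) ?_
    rw [Finset.sum_filter]
    refine Finset.sum_le_sum fun b _ => ?_
    split_ifs with h
    · rw [abs_mul]
      exact le_rfl
    · simp
  · refine le_trans (Finset.abs_sum_le_sum_abs _ _) ?_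
    rw [Finset.sum_filter]
    refine Finset.sum_le_sum fun a _ => ?_
    have e3 : ∑ b ∈ Finset.Ioc 0 (N / a), (if b ≤ Z then (0 : ℝ) else r b) = if Z < N / a then R (N / a) - R Z else 0 := by
      split_ifs with h
      · unfold R
        rw [← Finset.sum_Ioc_consecutive r (Nat.zero_le Z) h.le, add_sub_cancel_left,
          ← Finset.sum_Ioc_consecutive _ (Nat.zero_le Z) h.le]
        have h1 : ∑ b ∈ Finset.Ioc 0 Z, (if b ≤ Z then (0 : ℝ) else r b) = 0 := by
          refine Finset.sum_eq_zero fun b hb => ?_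
          rw [Finset.mem_Ioc] at hb
          rw [if_pos hb.2]
        rw [h1, zero_add]
        refine Finset.sum_congr rfl fun b hb => ?_
        rw [Finset.mem_Ioc] at hb
        rw [if_neg (by omega)]
      · refine Finset.sum_eq_zero fun b hb => ?_
        rw [Finset.mem_Ioc] at hb
        rw [if_pos (by omega)]
    rw [e3, abs_mul]
    have h4 := abs_lam_le a
    split_ifs with h
    · calc |lam a| * |R (N / a) - R Z| ≤ 1 * |R (N / a) - R Z| := by gcongr
        _ ≤ |R (N / a)| + |R Z| := by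
          rw [one_mul]
          exact abs_sub _ _
    · simp

theorem step (h : ZF.StUn) (B : ℝ) (hB : 0 ≤ B) (hP : PB B) : PB (B + 1 / 2) := by
  obtain ⟨C1, hC1, h1⟩ := hP
  obtain ⟨C2, hC2, h2⟩ := R_small h (4 * (B + 1)) (by linarith)
  obtain ⟨C3, hC3, h3⟩ := sum_inv_ell B hB
  obtain ⟨C4, hC4, h4⟩ := sqrt_le B hB
  have h2B : (1 : ℝ) ≤ 2 ^ B := Real.one_le_rpow (by norm_num) hB
  set K : ℝ := 4 * C1 * 2 ^ B + 2 * C2 + C4 + C1 * C3 with hK
  have hKpos : 0 < K := by positivity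
  have h16 : (1 : ℝ) ≤ 16 ^ (B + 1 / 2) := Real.one_le_rpow (by norm_num) (by linarith)
  refine ⟨2 * K + 16 ^ (B + 1 / 2), by linarith, fun N hN => ?_⟩
  have hN1 : (1 : ℝ) ≤ N := by exact_mod_cast hN
  have heN := one_le_ell hN1
  have hposN : 0 < ell N ^ (B + 1 / 2) := Real.rpow_pos_of_pos (by linarith) _
  have hposB : 0 < ell N ^ B := Real.rpow_pos_of_pos (by linarith) _
  have e0 : (2 * K + 16 ^ (B + 1 / 2)) * N / ell N ^ (B + 1 / 2) =
    2 * K * N / ell N ^ (B + 1 / 2) + 16 ^ (B + 1 / 2) * N / ell N ^ (B + 1 / 2) := by ring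
  rw [e0]
  rcases lt_or_ge (ell N) 16 with hlt | hge
  · have h5 : (N : ℝ) ≤ 16 ^ (B + 1 / 2) * N / ell N ^ (B + 1 / 2) := by
      rw [le_div_iff₀ hposN, mul_comm]
      gcongr
    have h6 : 0 ≤ 2 * K * N / ell N ^ (B + 1 / 2) := by positivity
    have h7 := abs_Lsum_le N
    linarith
  · obtain ⟨hu2, hu4, hu3⟩ := fourth hge
    set u : ℝ := ell N ^ (1 / 4 : ℝ) with hu
    set Z : ℕ := ⌈Real.exp u⌉₊ with hZ
    have hZ1 : Real.exp u ≤ Z := Nat.le_ceil _
    have hZ2 : (Z : ℝ) < Real.exp u + 1 := Nat.ceil_lt_add_one (Real.exp_pos _).le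
    have hexp : (1 : ℝ) ≤ Real.exp u := Real.one_le_exp (by linarith)
    have hZpos : (1 : ℝ) ≤ Z := le_trans hexp hZ1
    have hlZ1 : u ≤ Real.log Z := by
      rw [Real.le_log_iff_exp_le (by linarith)]
      exact hZ1
    have hlZ2 : Real.log Z ≤ u + 1 := by
      rw [Real.log_le_iff_le_exp (by linarith), Real.exp_add]
      have := Real.add_one_le_exp (1 : ℝ)
      nlinarith
    have heZ1 : u ≤ ell Z := by
      unfold ell
      linarith
    have heZ2 : ell Z ≤ 2 * u := by
      unfold ell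
      linarith
    have hu8 : 8 * u ≤ ell N := by
      rw [← hu4]
      have : (2 : ℝ) ^ 3 ≤ u ^ 3 := pow_le_pow_left₀ (by norm_num) hu2 3
      nlinarith
    -- first part
    have hfirst : ∑ b ∈ (Finset.Ioc 0 N).filter (fun b => b ≤ Z), |r b| * |Lsum (N / b)| ≤
        4 * C1 * 2 ^ B * u ^ 2 * (N / ell N ^ B) := by
      calc ∑ b ∈ (Finset.Ioc 0 N).filter (fun b => b ≤ Z), |r b| * |Lsum (N / b)| ≤
          ∑ b ∈ (Finset.Ioc 0 N).filter (fun b => b ≤ Z), (2 * u) * (C1 * 2 ^ B * (N / ell N ^ B)) * (1 / b) := by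
            refine Finset.sum_le_sum fun b hb => ?_
            rw [Finset.mem_filter, Finset.mem_Ioc] at hb
            obtain ⟨⟨hb0, hbN⟩, hbZ⟩ := hb
            have hb1 : (1 : ℝ) ≤ b := by exact_mod_cast hb0
            have hbZ' : (b : ℝ) ≤ Z := by exact_mod_cast hbZ
            have hlb : Real.log b ≤ Real.log Z := Real.log_le_log (by linarith) hbZ'
            have hr : |r b| ≤ 2 * u := by
              have := abs_r_le b
              unfold ell at heZ2
              linarith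
            have hm : 1 ≤ N / b := by
              rw [Nat.one_le_div_iff hb0]
              exact hbN
            have hm1 : (1 : ℝ) ≤ ((N / b : ℕ) : ℝ) := by exact_mod_cast hm
            have hlog : Real.log N ≤ Real.log 2 + Real.log ((N / b : ℕ) : ℝ) + Real.log b := by
              rw [← Real.log_mul (by norm_num) (by linarith), ← Real.log_mul (by positivity) (by linarith)]
              refine Real.log_le_log (by linarith) ?_
              have h7 : N < (N / b) * b + b := Nat.lt_div_mul_add hb0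
              have h8 : (N : ℝ) ≤ ((N / b : ℕ) : ℝ) * b + b := by exact_mod_cast h7.le
              nlinarith
            have hl2 := Real.log_two_lt_d9
            have hell : ell N ≤ 2 * ell ((N / b : ℕ) : ℝ) := by
              unfold ell at hu8 ⊢
              linarith
            have hem := one_le_ell hm1
            have hposm : 0 < ell ((N / b : ℕ) : ℝ) ^ B := Real.rpow_pos_of_pos (by linarith) _
            have hL : |Lsum (N / b)| ≤ C1 * 2 ^ B * (N / ell N ^ B) * (1 / b) := by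
              refine le_trans (h1 (N / b) hm) ?_
              have h9 : ell N ^ B ≤ 2 ^ B * ell ((N / b : ℕ) : ℝ) ^ B := by
                rw [← Real.mul_rpow (by norm_num) (by linarith)]
                exact Real.rpow_le_rpow (by linarith) hell hB
              have h10 : ((N / b : ℕ) : ℝ) ≤ N / b := Nat.cast_div_le
              have h11 : 1 / ell ((N / b : ℕ) : ℝ) ^ B ≤ 2 ^ B / ell N ^ B := by
                rw [div_le_div_iff₀ hposm hposB]
                linarith
              calc C1 * ((N / b : ℕ) : ℝ) / ell ((N / b : ℕ) : ℝ) ^ B = C1 * ((N / b : ℕ) : ℝ) * (1 / ell ((N / b : ℕ) : ℝ) ^ B) := by ring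
                _ ≤ C1 * (N / b) * (2 ^ B / ell N ^ B) := by gcongr
                _ = _ := by ring
            calc |r b| * |Lsum (N / b)| ≤ (2 * u) * (C1 * 2 ^ B * (N / ell N ^ B) * (1 / b)) := by gcongr
              _ = _ := by ring
        _ ≤ ∑ b ∈ Finset.Ioc 0 Z, (2 * u) * (C1 * 2 ^ B * (N / ell N ^ B)) * (1 / b) := by
            refine Finset.sum_le_sum_of_subset_of_nonneg ?_ fun b _ _ => by positivity
            intro b hb
            rw [Finset.mem_filter, Finset.mem_Ioc] at hb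
            rw [Finset.mem_Ioc]
            exact ⟨hb.1.1, hb.2⟩
        _ = (2 * u) * (C1 * 2 ^ B * (N / ell N ^ B)) * ∑ b ∈ Finset.Ioc 0 Z, 1 / (b : ℝ) := by
            rw [Finset.mul_sum]
        _ ≤ (2 * u) * (C1 * 2 ^ B * (N / ell N ^ B)) * (2 * u) := by
            gcongr
            exact le_trans (harmonic_le Z) heZ2
        _ = _ := by ring
    -- second part
    have hsecond : ∑ a ∈ (Finset.Ioc 0 N).filter (fun a => Z < N / a), (|R (N / a)| + |R Z|) ≤ 2 * C2 * (N / ell N ^ B) := by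
      have hZn : 1 ≤ Z := by exact_mod_cast hZpos
      have hZpow : ell N ^ (B + 1) ≤ ell Z ^ (4 * (B + 1)) := by
        have e1 : ell N ^ (B + 1) = u ^ (4 * (B + 1)) := by
          rw [hu, ← Real.rpow_mul (by linarith)]
          congr 1
          ring
        rw [e1]
        exact Real.rpow_le_rpow (by linarith) heZ1 (by linarith)
      have hposN1 : 0 < ell N ^ (B + 1) := Real.rpow_pos_of_pos (by linarith) _
      calc ∑ a ∈ (Finset.Ioc 0 N).filter (fun a => Z < N / a), (|R (N / a)| + |R Z|) ≤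
          ∑ a ∈ (Finset.Ioc 0 N).filter (fun a => Z < N / a), 2 * C2 * (N / ell N ^ (B + 1)) * (1 / a) := by
            refine Finset.sum_le_sum fun a ha => ?_
            rw [Finset.mem_filter, Finset.mem_Ioc] at ha
            obtain ⟨⟨ha0, haN⟩, haZ⟩ := ha
            have h10 : ((N / a : ℕ) : ℝ) ≤ N / a := Nat.cast_div_le
            have h11 : (Z : ℝ) ≤ ((N / a : ℕ) : ℝ) := by exact_mod_cast haZ.le
            have h12 : ell Z ≤ ell ((N / a : ℕ) : ℝ) := ell_mono (by linarith) h11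
            have hgen : ∀ M : ℕ, Z ≤ M → (M : ℝ) ≤ N / a → |R M| ≤ C2 * (N / ell N ^ (B + 1)) * (1 / a) := by
              intro M hM hM2
              refine le_trans (h2 M (by omega)) ?_
              have h13 : ell Z ≤ ell M := ell_mono (by linarith) (by exact_mod_cast hM)
              have h14 : ell N ^ (B + 1) ≤ ell M ^ (4 * (B + 1)) :=
                le_trans hZpow (Real.rpow_le_rpow (by linarith) h13 (by linarith))
              calc C2 * M / ell M ^ (4 * (B + 1)) ≤ C2 * (N / a) / ell N ^ (B + 1) := by gcongr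
                _ = _ := by ring
            have h15 := hgen (N / a) haZ.le h10
            have h16 := hgen Z le_rfl (by linarith)
            linarith
        _ ≤ ∑ a ∈ Finset.Ioc 0 N, 2 * C2 * (N / ell N ^ (B + 1)) * (1 / a) := by
            refine Finset.sum_le_sum_of_subset_of_nonneg (Finset.filter_subset _ _) fun a _ _ => by positivity
        _ = 2 * C2 * (N / ell N ^ (B + 1)) * ∑ a ∈ Finset.Ioc 0 N, 1 / (a : ℝ) := by
            rw [Finset.mul_sum]
        _ ≤ 2 * C2 * (N / ell N ^ (B + 1)) * ell N := by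
            gcongr
            exact harmonic_le N
        _ = _ := by
            rw [Real.rpow_add (by linarith), Real.rpow_one]
            field_simp
    -- the logarithmic sum
    have hlogsum : |∑ n ∈ Finset.Ioc 0 N, lam n * Real.log n| ≤ (4 * C1 * 2 ^ B + 2 * C2 + C4) * u ^ 2 * (N / ell N ^ B) := by
      have e1 : ∑ n ∈ Finset.Ioc 0 N, lam n * Real.log n = T lam r N - T lam (fun _ => 1) N := by
        rw [← T_lam_lv]
        have : T lam r N = T lam lv N + T lam (fun _ => 1) N := T_add lam lv (fun _ => 1) N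
        rw [this]
        ring
      rw [e1]
      have h5 := split_bound N Z
      have h6 := T_lam_one N
      have h7 := h4 N hN1
      have h8 : |T lam r N - T lam (fun _ => 1) N| ≤ |T lam r N| + |T lam (fun _ => 1) N| := abs_sub _ _
      have hu1 : 1 ≤ u ^ 2 := by nlinarith
      have hq : 0 ≤ N / ell N ^ B := by positivity
      have h9 : 2 * C2 * (N / ell N ^ B) ≤ 2 * C2 * u ^ 2 * (N / ell N ^ B) := by
        have : 2 * C2 * 1 * (N / ell N ^ B) ≤ 2 * C2 * u ^ 2 * (N / ell N ^ B) := by gcongr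
        linarith
      have h10 : C4 * N / ell N ^ B ≤ C4 * u ^ 2 * (N / ell N ^ B) := by
        have : C4 * 1 * (N / ell N ^ B) ≤ C4 * u ^ 2 * (N / ell N ^ B) := by gcongr
        calc C4 * N / ell N ^ B = C4 * 1 * (N / ell N ^ B) := by ring
          _ ≤ _ := this
      have e2 : (4 * C1 * 2 ^ B + 2 * C2 + C4) * u ^ 2 * (N / ell N ^ B) =
        4 * C1 * 2 ^ B * u ^ 2 * (N / ell N ^ B) + 2 * C2 * u ^ 2 * (N / ell N ^ B) + C4 * u ^ 2 * (N / ell N ^ B) := by ring
      rw [e2]
      linarith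
    -- Abel summation
    have habel := Lio.abel (fun n : ℕ => Real.log (n : ℝ)) 0 N (Nat.zero_le N)
    rw [Lsum_zero, zero_smul, sub_zero] at habel
    simp only [smul_eq_mul] at habel
    have herr : |∑ n ∈ Finset.Ico 0 N, Lsum n * (Real.log ((n + 1 : ℕ) : ℝ) - Real.log (n : ℝ))| ≤ C1 * C3 * (N / ell N ^ B) := by
      refine le_trans (Finset.abs_sum_le_sum_abs _ _) ?_
      have e1 : ∑ n ∈ Finset.Ico 0 N, |Lsum n * (Real.log ((n + 1 : ℕ) : ℝ) - Real.log (n : ℝ))| =
          ∑ n ∈ Finset.Ico 1 N, |Lsum n * (Real.log ((n + 1 : ℕ) : ℝ) - Real.log (n : ℝ))| := by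
        rw [Finset.sum_eq_sum_Ico_succ_bot hN, Lsum_zero]
        simp
      rw [e1]
      calc ∑ n ∈ Finset.Ico 1 N, |Lsum n * (Real.log ((n + 1 : ℕ) : ℝ) - Real.log (n : ℝ))| ≤
          ∑ n ∈ Finset.Ico 1 N, C1 * (1 / ell n ^ B) := by
            refine Finset.sum_le_sum fun n hn => ?_
            rw [Finset.mem_Ico] at hn
            have hn1 : (0 : ℝ) < n := by exact_mod_cast hn.1
            rw [abs_mul]
            calc |Lsum n| * |Real.log ((n + 1 : ℕ) : ℝ) - Real.log (n : ℝ)| ≤ (C1 * n / ell n ^ B) * (1 / n) := by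
                  have h5 := h1 n hn.1
                  have h6 := log_step hn.1
                  have h7 : 0 ≤ C1 * n / ell n ^ B := le_trans (abs_nonneg _) h5
                  gcongr
              _ = _ := by field_simp
        _ = C1 * ∑ n ∈ Finset.Ico 1 N, 1 / ell n ^ B := by rw [Finset.mul_sum]
        _ ≤ C1 * (C3 * N / ell N ^ B) := by
            gcongr
            exact h3 N hN
        _ = _ := by ring
    have hmain : |Lsum N| * Real.log N ≤ K * u ^ 2 * (N / ell N ^ B) := by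
      have hlogN : 0 ≤ Real.log N := Real.log_nonneg hN1
      have e1 : Lsum N * Real.log N = ∑ n ∈ Finset.Ioc 0 N, lam n * Real.log n +
          ∑ n ∈ Finset.Ico 0 N, Lsum n * (Real.log ((n + 1 : ℕ) : ℝ) - Real.log (n : ℝ)) := by
        rw [habel]
        ring
      have e2 : |Lsum N| * Real.log N = |Lsum N * Real.log N| := by rw [abs_mul, abs_of_nonneg hlogN]
      rw [e2, e1]
      refine le_trans (abs_add_le _ _) ?_
      have hu1 : 1 ≤ u ^ 2 := by nlinarith
      have h9 : C1 * C3 * (N / ell N ^ B) ≤ C1 * C3 * u ^ 2 * (N / ell N ^ B) := by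
        have : C1 * C3 * 1 * (N / ell N ^ B) ≤ C1 * C3 * u ^ 2 * (N / ell N ^ B) := by gcongr
        linarith
      have e3 : K * u ^ 2 * (N / ell N ^ B) = (4 * C1 * 2 ^ B + 2 * C2 + C4) * u ^ 2 * (N / ell N ^ B) +
        C1 * C3 * u ^ 2 * (N / ell N ^ B) := by
        rw [hK]
        ring
      rw [e3]
      linarith
    have hlogN2 : ell N / 2 ≤ Real.log N := by
      have : ell N = 1 + Real.log N := rfl
      linarith
    have hfin : |Lsum N| ≤ 2 * K * N / ell N ^ (B + 1 / 2) := by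
      rw [Real.rpow_add (by linarith), hu3, le_div_iff₀ (by positivity)]
      have h5 : |Lsum N| * (u ^ 4 / 2) ≤ K * u ^ 2 * (N / ell N ^ B) := by
        rw [hu4]
        exact le_trans (by gcongr) hmain
      have hu0 : 0 < u ^ 2 := by positivity
      have h6 : |Lsum N| * (u ^ 4 / 2) = u ^ 2 * (|Lsum N| * (u ^ 2) / 2) := by ring
      have h7 : K * u ^ 2 * (N / ell N ^ B) = u ^ 2 * (K * (N / ell N ^ B)) := by ring
      rw [h6, h7] at h5
      have h8 := le_of_mul_le_mul_left h5 hu0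
      have h9 : |Lsum N| * (u ^ 2) / 2 * (2 * ell N ^ B) ≤ K * (N / ell N ^ B) * (2 * ell N ^ B) := by gcongr
      have h10 : K * (N / ell N ^ B) * (2 * ell N ^ B) = 2 * K * N := by field_simp
      rw [h10] at h9
      linarith
    have h6 : 0 ≤ 16 ^ (B + 1 / 2) * N / ell N ^ (B + 1 / 2) := by positivity
    linarith

theorem PB_all (h : ZF.StUn) (A : ℝ) : PB A := by
  have hk : ∀ k : ℕ, PB (k / 2) := by
    intro k
    induction k with
    | zero => simpa using PB_zero
    | succ k ih =>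
      have := step h (k / 2) (by positivity) ih
      convert this using 1
      push_cast
      ring
  refine PB_mono ?_ (hk (⌈2 * A⌉₊))
  have := Nat.le_ceil (2 * A)
  linarith

end Lio

end Pool.Agent.Work.MP_a8fbd7_nt.PAR
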