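import Pool.Agent.Work.MP_a8fbd7_nt.PAR.Lio

/-!
# Sums of the Liouville function with the twist `n^{-it}`, low frequencies
-/

set_option autoImplicit false

open Finset

noncomputable section

namespace Pool.Agent.Work.MP_a8fbd7_nt.PAR

namespace Lio

/-- the twist -/
def tw (t : ℝ) (n : ℕ) : ℂ := (n : ℂ) ^ (-(t * Complex.I))

theorem tw_eq (t : ℝ) {n : ℕ} (hn : 1 ≤ n) : tw t n = Complex.exp (Complex.I * ((-(t * Real.log n) : ℝ) : ℂ)) := by
  have h0 : (n : ℂ) ≠ 0 := by exact_mod_cast (by omega : n ≠ 0)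
  unfold tw
  rw [Complex.cpow_def_of_ne_zero h0, ← Complex.ofReal_natCast, ← Complex.ofReal_log (by positivity)]
  congr 1
  push_cast
  ring

theorem norm_tw (t : ℝ) {n : ℕ} (hn : 1 ≤ n) : ‖tw t n‖ = 1 := by
  rw [tw_eq t hn, Complex.norm_exp_I_mul_ofReal]

theorem tw_step (t : ℝ) {n : ℕ} (hn : 1 ≤ n) : ‖tw t (n + 1) - tw t n‖ ≤ |t| / n := by
  have h1 : tw t (n + 1) - tw t n = tw t n * (Complex.exp (Complex.I * ((-(t * (Real.log ((n + 1 : ℕ) : ℝ) - Real.log n)) : ℝ) : ℂ)) - 1) := by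
    rw [tw_eq t hn, tw_eq t (by omega : 1 ≤ n + 1), mul_sub, ← Complex.exp_add, mul_one]
    congr 2
    push_cast
    ring
  rw [h1, norm_mul, norm_tw t hn, one_mul]
  refine le_trans Real.norm_exp_I_mul_ofReal_sub_one_le ?_
  rw [Real.norm_eq_abs, abs_neg, abs_mul]
  have h2 := log_step hn
  calc |t| * |Real.log ((n + 1 : ℕ) : ℝ) - Real.log n| ≤ |t| * (1 / n) := by gcongr
    _ = _ := by ring

/-- monotonicity of `x / (1 + log x)^A` up to a constant -/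
theorem div_ell_mono (A : ℝ) (hA : 0 ≤ A) : ∃ C : ℝ, 1 ≤ C ∧ ∀ x y : ℝ, 1 ≤ x → x ≤ y → x / ell x ^ A ≤ C * (y / ell y ^ A) := by
  obtain ⟨C, hC, h⟩ := ell_pow A hA
  refine ⟨C, hC, fun x y hx hxy => ?_⟩
  have hex := one_le_ell hx
  have hey := one_le_ell (le_trans hx hxy)
  have hposx : 0 < ell x ^ A := Real.rpow_pos_of_pos (by linarith) _
  have hposy : 0 < ell y ^ A := Real.rpow_pos_of_pos (by linarith) _
  have hq : 1 ≤ y / x := by rwa [le_div_iff₀ (by linarith), one_mul]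
  have heq := one_le_ell hq
  have h1 : ell y ≤ ell x * ell (y / x) := by
    have hl1 := Real.log_nonneg hx
    have hl2 := Real.log_nonneg hq
    have : Real.log y = Real.log x + Real.log (y / x) := by
      rw [Real.log_div (by linarith) (by linarith)]
      ring
    unfold ell
    rw [this]
    nlinarith [mul_nonneg hl1 hl2]
  have h2 : ell y ^ A ≤ ell x ^ A * (C * (y / x)) := by
    calc ell y ^ A ≤ (ell x * ell (y / x)) ^ A := Real.rpow_le_rpow (by linarith) h1 hA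
      _ = ell x ^ A * ell (y / x) ^ A := Real.mul_rpow (by linarith) (by linarith)
      _ ≤ ell x ^ A * (C * (y / x) ^ (1 / 4 : ℝ)) := by
          gcongr
          exact h _ hq
      _ ≤ ell x ^ A * (C * (y / x)) := by
          gcongr
          calc (y / x) ^ (1 / 4 : ℝ) ≤ (y / x) ^ (1 : ℝ) := Real.rpow_le_rpow_of_exponent_le hq (by norm_num)
            _ = _ := Real.rpow_one _
  rw [div_le_iff₀ hposx]
  calc x = x / ell y ^ A * ell y ^ A := by field_simp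
    _ ≤ x / ell y ^ A * (ell x ^ A * (C * (y / x))) := by gcongr
    _ = C * (y / ell y ^ A) * ell x ^ A := by field_simp

theorem floor_log {y : ℝ} (hy : 2 ≤ y) : 1 ≤ ⌊y⌋₊ ∧ (⌊y⌋₊ : ℝ) ≤ y ∧ Real.log y ≤ ell (⌊y⌋₊ : ℝ) := by
  have h1 : 2 ≤ ⌊y⌋₊ := Nat.le_floor (by exact_mod_cast hy)
  have h2 : (⌊y⌋₊ : ℝ) ≤ y := Nat.floor_le (by linarith)
  have h3 : y < ⌊y⌋₊ + 1 := Nat.lt_floor_add_one y
  have h4 : (2 : ℝ) ≤ (⌊y⌋₊ : ℝ) := by exact_mod_cast h1
  refine ⟨by omega, h2, ?_⟩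
  have h5 : Real.log y ≤ Real.log (2 * (⌊y⌋₊ : ℝ)) := Real.log_le_log (by linarith) (by linarith)
  rw [Real.log_mul (by norm_num) (by linarith)] at h5
  have := Real.log_two_lt_d9
  unfold ell
  linarith

end Lio

open Lio

theorem pr_Lio (h : ZF.StUn) : StLio := by
  intro A hA
  obtain ⟨C, hC, h1⟩ := PB_all h A
  refine ⟨C, hC, fun y hy => ?_⟩
  obtain ⟨hf1, hf2, hf3⟩ := floor_log hy
  have hlog : 0 < Real.log y := Real.log_pos (by linarith)
  have e1 : ∑ n ∈ Finset.Icc 1 ⌊y⌋₊, lam n = Lsum ⌊y⌋₊ := rfl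
  rw [e1]
  refine le_trans (h1 _ hf1) ?_
  have h2 : Real.log y ^ A ≤ ell (⌊y⌋₊ : ℝ) ^ A := Real.rpow_le_rpow hlog.le hf3 hA.le
  have h3 : 0 < Real.log y ^ A := Real.rpow_pos_of_pos hlog _
  gcongr

theorem pr_Lit (h : ZF.StUn) : StLit := by
  intro A hA
  obtain ⟨C, hC, h1⟩ := PB_all h A
  obtain ⟨C2, hC2, h2⟩ := sum_inv_ell A hA.le
  obtain ⟨C3, hC3, h3⟩ := div_ell_mono A hA.le
  refine ⟨C + C * C3 + C * C2, by nlinarith, fun x y t hy hx hxy => ?_⟩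
  obtain ⟨hf1, hf2, hf3⟩ := floor_log hy
  have hlog : 0 < Real.log y := Real.log_pos (by linarith)
  have hl1 : Real.log y ^ A ≤ ell (⌊y⌋₊ : ℝ) ^ A := Real.rpow_le_rpow hlog.le hf3 hA.le
  have hl2 : 0 < Real.log y ^ A := Real.rpow_pos_of_pos hlog _
  have hXY : ⌊x⌋₊ ≤ ⌊y⌋₊ := Nat.floor_le_floor hxy
  generalize ⌊x⌋₊ = X at hXY ⊢
  set Y := ⌊y⌋₊ with hY
  have hYr : (1 : ℝ) ≤ Y := by exact_mod_cast hf1
  have heY := one_le_ell hYr
  have hposY : 0 < ell Y ^ A := Real.rpow_pos_of_pos (by linarith) _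
  have habel := Lio.abel (tw t) X Y hXY
  have e1 : ∑ n ∈ Finset.Ioc X Y, (lam n : ℂ) * (n : ℂ) ^ (-(t * Complex.I)) = ∑ n ∈ Finset.Ioc X Y, lam n • tw t n := by
    refine Finset.sum_congr rfl fun n _ => ?_
    rw [Complex.real_smul]
    rfl
  rw [e1, habel]
  have hb : 0 ≤ (Y : ℝ) / ell Y ^ A := by positivity
  have hbY : (Y : ℝ) / ell Y ^ A ≤ y / Real.log y ^ A := by gcongr
  have hA1 : ‖Lsum Y • tw t Y‖ ≤ C * ((Y : ℝ) / ell Y ^ A) := by
    rw [norm_smul, norm_tw t hf1, mul_one, Real.norm_eq_abs]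
    calc |Lsum Y| ≤ C * Y / ell Y ^ A := h1 Y hf1
      _ = _ := by ring
  have hA2 : ‖Lsum X • tw t X‖ ≤ C * C3 * ((Y : ℝ) / ell Y ^ A) := by
    rcases Nat.eq_zero_or_pos X with rfl | hX
    · rw [Lsum_zero, zero_smul, norm_zero]
      positivity
    · rw [norm_smul, norm_tw t hX, mul_one, Real.norm_eq_abs]
      have hXr : (1 : ℝ) ≤ X := by exact_mod_cast hX
      calc |Lsum X| ≤ C * X / ell X ^ A := h1 X hX
        _ = C * (X / ell X ^ A) := by ring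
        _ ≤ C * (C3 * ((Y : ℝ) / ell Y ^ A)) := by
            gcongr
            exact h3 X Y hXr (by exact_mod_cast hXY)
        _ = _ := by ring
  have hA3 : ‖∑ n ∈ Finset.Ico X Y, Lsum n • (tw t (n + 1) - tw t n)‖ ≤ C * C2 * |t| * ((Y : ℝ) / ell Y ^ A) := by
    calc ‖∑ n ∈ Finset.Ico X Y, Lsum n • (tw t (n + 1) - tw t n)‖ ≤ ∑ n ∈ Finset.Ico X Y, ‖Lsum n • (tw t (n + 1) - tw t n)‖ := norm_sum_le _ _
      _ ≤ ∑ n ∈ Finset.Ico 0 Y, ‖Lsum n • (tw t (n + 1) - tw t n)‖ := by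
          refine Finset.sum_le_sum_of_subset_of_nonneg ?_ fun n _ _ => norm_nonneg _
          exact Finset.Ico_subset_Ico_left (Nat.zero_le X)
      _ = ∑ n ∈ Finset.Ico 1 Y, ‖Lsum n • (tw t (n + 1) - tw t n)‖ := by
          rw [Finset.sum_eq_sum_Ico_succ_bot hf1, Lsum_zero]
          simp
      _ ≤ ∑ n ∈ Finset.Ico 1 Y, C * |t| * (1 / ell n ^ A) := by
          refine Finset.sum_le_sum fun n hn => ?_
          rw [Finset.mem_Ico] at hn
          have hn1 : (0 : ℝ) < n := by exact_mod_cast hn.1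
          rw [norm_smul, Real.norm_eq_abs]
          have h5 := h1 n hn.1
          have h6 := tw_step t hn.1
          have h7 : 0 ≤ C * n / ell n ^ A := le_trans (abs_nonneg _) h5
          calc |Lsum n| * ‖tw t (n + 1) - tw t n‖ ≤ (C * n / ell n ^ A) * (|t| / n) := by gcongr
            _ = _ := by field_simp
      _ = C * |t| * ∑ n ∈ Finset.Ico 1 Y, 1 / ell n ^ A := by rw [Finset.mul_sum]
      _ ≤ C * |t| * (C2 * Y / ell Y ^ A) := by
          gcongr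
          exact h2 Y hf1
      _ = _ := by ring
  have ht := abs_nonneg t
  calc ‖Lsum Y • tw t Y - Lsum X • tw t X - ∑ n ∈ Finset.Ico X Y, Lsum n • (tw t (n + 1) - tw t n)‖ ≤
      ‖Lsum Y • tw t Y - Lsum X • tw t X‖ + ‖∑ n ∈ Finset.Ico X Y, Lsum n • (tw t (n + 1) - tw t n)‖ := norm_sub_le _ _
    _ ≤ ‖Lsum Y • tw t Y‖ + ‖Lsum X • tw t X‖ + ‖∑ n ∈ Finset.Ico X Y, Lsum n • (tw t (n + 1) - tw t n)‖ := by
        gcongr
        exact norm_sub_le _ _
    _ ≤ C * ((Y : ℝ) / ell Y ^ A) + C * C3 * ((Y : ℝ) / ell Y ^ A) + C * C2 * |t| * ((Y : ℝ) / ell Y ^ A) := by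
        linarith
    _ ≤ (C + C * C3 + C * C2) * (1 + |t|) * ((Y : ℝ) / ell Y ^ A) := by
        have h5 : 0 ≤ C * |t| * ((Y : ℝ) / ell Y ^ A) := by positivity
        have h6 : 0 ≤ C * C3 * |t| * ((Y : ℝ) / ell Y ^ A) := by positivity
        have h7 : 0 ≤ C * C2 * ((Y : ℝ) / ell Y ^ A) := by positivity
        have e2 : (C + C * C3 + C * C2) * (1 + |t|) * ((Y : ℝ) / ell Y ^ A) =
          C * ((Y : ℝ) / ell Y ^ A) + C * C3 * ((Y : ℝ) / ell Y ^ A) + C * C2 * |t| * ((Y : ℝ) / ell Y ^ A) +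
          (C * |t| * ((Y : ℝ) / ell Y ^ A) + C * C3 * |t| * ((Y : ℝ) / ell Y ^ A) + C * C2 * ((Y : ℝ) / ell Y ^ A)) := by ring
        rw [e2]
        linarith
    _ ≤ (C + C * C3 + C * C2) * (1 + |t|) * (y / Real.log y ^ A) := by gcongr
    _ = _ := by ring

/-- `n^{-1-it}` -/
def tw1 (t : ℝ) (n : ℕ) : ℂ := (n : ℂ) ^ (-(1 + t * Complex.I))

theorem tw1_eq (t : ℝ) {n : ℕ} (hn : 1 ≤ n) : tw1 t n = ((1 / n : ℝ) : ℂ) * tw t n := by
  have h0 : (n : ℂ) ≠ 0 := by exact_mod_cast (by omega : n ≠ 0)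
  unfold tw1 tw
  rw [neg_add, Complex.cpow_add _ _ h0, Complex.cpow_neg_one]
  push_cast
  rw [one_div]

theorem norm_tw1 (t : ℝ) {n : ℕ} (hn : 1 ≤ n) : ‖tw1 t n‖ = 1 / n := by
  rw [tw1_eq t hn, norm_mul, norm_tw t hn, Complex.norm_real, Real.norm_eq_abs, abs_of_nonneg (by positivity), mul_one]

theorem tw1_step (t : ℝ) {n : ℕ} (hn : 1 ≤ n) : ‖tw1 t (n + 1) - tw1 t n‖ ≤ (1 + |t|) / n ^ 2 := by
  have hn0 : (0 : ℝ) < n := by exact_mod_cast hn
  have e1 : tw1 t (n + 1) - tw1 t n = ((1 / ((n + 1 : ℕ) : ℝ) : ℝ) : ℂ) * (tw t (n + 1) - tw t n) +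
      ((1 / ((n + 1 : ℕ) : ℝ) - 1 / n : ℝ) : ℂ) * tw t n := by
    rw [tw1_eq t hn, tw1_eq t (by omega : 1 ≤ n + 1)]
    push_cast
    ring
  rw [e1]
  refine le_trans (norm_add_le _ _) ?_
  rw [norm_mul, norm_mul, norm_tw t hn, Complex.norm_real, Complex.norm_real, Real.norm_eq_abs, Real.norm_eq_abs,
    abs_of_nonneg (by positivity : (0 : ℝ) ≤ 1 / ((n + 1 : ℕ) : ℝ)), mul_one]
  have h1 := tw_step t hn
  have h2 : 1 / ((n + 1 : ℕ) : ℝ) ≤ 1 / n := by
    rw [div_le_div_iff₀ (by positivity) hn0]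
    push_cast
    linarith
  have h3 : |1 / ((n + 1 : ℕ) : ℝ) - 1 / n| ≤ 1 / n ^ 2 := by
    rw [abs_sub_comm, abs_of_nonneg (by linarith)]
    push_cast
    rw [div_sub_div _ _ hn0.ne' (by positivity), div_le_div_iff₀ (by positivity) (by positivity)]
    nlinarith
  calc 1 / ((n + 1 : ℕ) : ℝ) * ‖tw t (n + 1) - tw t n‖ + |1 / ((n + 1 : ℕ) : ℝ) - 1 / n| ≤ 1 / n * (|t| / n) + 1 / n ^ 2 := by gcongr
    _ = _ := by
      field_simp
      ring

theorem pr_Lio1 (h : ZF.StUn) : StLio1 := by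
  intro A hA
  obtain ⟨C, hC, h1⟩ := PB_all h (A + 1)
  refine ⟨6 * C, by linarith, fun x y t hx hxy hyx => ?_⟩
  obtain ⟨hf1, hf2, hf3⟩ := floor_log hx
  obtain ⟨hg1, hg2, hg3⟩ := floor_log (le_trans hx hxy)
  have hlog : 0 < Real.log x := Real.log_pos (by linarith)
  have hl1 : Real.log x ^ A ≤ ell (⌊x⌋₊ : ℝ) ^ A := Real.rpow_le_rpow hlog.le hf3 hA.le
  have hl2 : 0 < Real.log x ^ A := Real.rpow_pos_of_pos hlog _
  have hXY : ⌊x⌋₊ ≤ ⌊y⌋₊ := Nat.floor_le_floor hxy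
  set X := ⌊x⌋₊ with hX
  set Y := ⌊y⌋₊ with hY
  have hXr : (1 : ℝ) ≤ X := by exact_mod_cast hf1
  have hYr : (1 : ℝ) ≤ Y := by exact_mod_cast hg1
  have heX := one_le_ell hXr
  have heY := one_le_ell hYr
  have hXYr : (X : ℝ) ≤ Y := by exact_mod_cast hXY
  have heXY : ell X ≤ ell Y := ell_mono (by linarith) hXYr
  have hposX : 0 < ell X ^ (A + 1) := Real.rpow_pos_of_pos (by linarith) _
  have hposX' : 0 < ell X ^ A := Real.rpow_pos_of_pos (by linarith) _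
  have hgen : ∀ n : ℕ, X ≤ n → |Lsum n| ≤ C * n / ell X ^ (A + 1) := by
    intro n hn
    refine le_trans (h1 n (by omega)) ?_
    have h2 : ell X ≤ ell n := ell_mono (by linarith) (by exact_mod_cast hn)
    have h3 : ell X ^ (A + 1) ≤ ell n ^ (A + 1) := Real.rpow_le_rpow (by linarith) h2 (by linarith)
    gcongr
  have hq : 0 < C / ell X ^ (A + 1) := by positivity
  have habel := Lio.abel (tw1 t) X Y hXY
  have e1 : ∑ n ∈ Finset.Ioc X Y, (lam n : ℂ) * (n : ℂ) ^ (-(1 + t * Complex.I)) = ∑ n ∈ Finset.Ioc X Y, lam n • tw1 t n := by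
    refine Finset.sum_congr rfl fun n _ => ?_
    rw [Complex.real_smul]
    rfl
  rw [e1, habel]
  have hpt : ∀ n : ℕ, X ≤ n → ‖Lsum n • tw1 t n‖ ≤ C / ell X ^ (A + 1) := by
    intro n hn
    have hn0 : (0 : ℝ) < n := by
      have : 0 < n := by omega
      exact_mod_cast this
    rw [norm_smul, norm_tw1 t (by omega), Real.norm_eq_abs]
    calc |Lsum n| * (1 / n) ≤ (C * n / ell X ^ (A + 1)) * (1 / n) := by
          gcongr
          exact hgen n hn
      _ = _ := by field_simp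
  have hA3 : ‖∑ n ∈ Finset.Ico X Y, Lsum n • (tw1 t (n + 1) - tw1 t n)‖ ≤ C / ell X ^ (A + 1) * (1 + |t|) * ell Y := by
    calc ‖∑ n ∈ Finset.Ico X Y, Lsum n • (tw1 t (n + 1) - tw1 t n)‖ ≤ ∑ n ∈ Finset.Ico X Y, ‖Lsum n • (tw1 t (n + 1) - tw1 t n)‖ := norm_sum_le _ _
      _ ≤ ∑ n ∈ Finset.Ico X Y, C / ell X ^ (A + 1) * (1 + |t|) * (1 / n) := by
          refine Finset.sum_le_sum fun n hn => ?_
          rw [Finset.mem_Ico] at hn
          have hn0 : (0 : ℝ) < n := by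
            have : 0 < n := by omega
            exact_mod_cast this
          rw [norm_smul, Real.norm_eq_abs]
          have h5 := hgen n hn.1
          have h6 := tw1_step t (show 1 ≤ n by omega)
          have h7 : 0 ≤ C * n / ell X ^ (A + 1) := le_trans (abs_nonneg _) h5
          calc |Lsum n| * ‖tw1 t (n + 1) - tw1 t n‖ ≤ (C * n / ell X ^ (A + 1)) * ((1 + |t|) / n ^ 2) := by gcongr
            _ = _ := by field_simp
      _ ≤ ∑ n ∈ Finset.Ioc 0 Y, C / ell X ^ (A + 1) * (1 + |t|) * (1 / n) := by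
          refine Finset.sum_le_sum_of_subset_of_nonneg ?_ fun n _ _ => by positivity
          intro n hn
          rw [Finset.mem_Ico] at hn
          rw [Finset.mem_Ioc]
          omega
      _ = C / ell X ^ (A + 1) * (1 + |t|) * ∑ n ∈ Finset.Ioc 0 Y, 1 / (n : ℝ) := by rw [Finset.mul_sum]
      _ ≤ _ := by
          gcongr
          exact harmonic_le Y
  have hYX : ell Y ≤ 4 * ell X := by
    have h5 : Real.log Y ≤ 2 * Real.log x := by
      calc Real.log Y ≤ Real.log y := Real.log_le_log (by linarith) hg2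
        _ ≤ Real.log (x ^ (2 : ℝ)) := Real.log_le_log (by linarith) hyx
        _ = _ := by rw [Real.log_rpow (by linarith)]
    have e3 : ell Y = 1 + Real.log Y := rfl
    linarith
  have ht := abs_nonneg t
  calc ‖Lsum Y • tw1 t Y - Lsum X • tw1 t X - ∑ n ∈ Finset.Ico X Y, Lsum n • (tw1 t (n + 1) - tw1 t n)‖ ≤
      ‖Lsum Y • tw1 t Y - Lsum X • tw1 t X‖ + ‖∑ n ∈ Finset.Ico X Y, Lsum n • (tw1 t (n + 1) - tw1 t n)‖ := norm_sub_le _ _
    _ ≤ ‖Lsum Y • tw1 t Y‖ + ‖Lsum X • tw1 t X‖ + ‖∑ n ∈ Finset.Ico X Y, Lsum n • (tw1 t (n + 1) - tw1 t n)‖ := by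
        gcongr
        exact norm_sub_le _ _
    _ ≤ C / ell X ^ (A + 1) + C / ell X ^ (A + 1) + C / ell X ^ (A + 1) * (1 + |t|) * (4 * ell X) := by
        have h5 := hpt Y hXY
        have h6 := hpt X le_rfl
        have h7 : C / ell X ^ (A + 1) * (1 + |t|) * ell Y ≤ C / ell X ^ (A + 1) * (1 + |t|) * (4 * ell X) := by gcongr
        linarith
    _ ≤ C / ell X ^ (A + 1) * (1 + |t|) * (6 * ell X) := by
        have h8 : 1 ≤ (1 + |t|) * ell X := by nlinarith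
        have h9 : C / ell X ^ (A + 1) * 1 ≤ C / ell X ^ (A + 1) * ((1 + |t|) * ell X) := by gcongr
        have e2 : C / ell X ^ (A + 1) * (1 + |t|) * (6 * ell X) = C / ell X ^ (A + 1) * (1 + |t|) * (4 * ell X) +
          2 * (C / ell X ^ (A + 1) * ((1 + |t|) * ell X)) := by ring
        rw [e2]
        linarith
    _ = 6 * C * (1 + |t|) / ell X ^ A := by
        rw [Real.rpow_add (by linarith), Real.rpow_one]
        field_simp
    _ ≤ _ := by gcongr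

end Pool.Agent.Work.MP_a8fbd7_nt.PAR
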