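import Mathlib

set_option autoImplicit false

/-!
# Completely multiplicative sign functions on the Oppermann intervals, stage one

If a completely multiplicative function with values in the signs is constant on the integers of
`[n ^ 2 - n, n ^ 2 + n]`, `n ≥ 2`, then it is `1` at `2` and at `3`.
-/

namespace Pool.Agent.Work.MP_a8fbd7_nt.PAR

/-- completely multiplicative functions with values one and minus one -/
structure Sgn (f : ℕ → ℤ) : Prop where
  mul : ∀ a b, 0 < a → 0 < b → f (a * b) = f a * f b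
  val : ∀ a, 0 < a → f a = 1 ∨ f a = -1

theorem Sgn.ne {f : ℕ → ℤ} (hf : Sgn f) {a : ℕ} (ha : 0 < a) : f a ≠ 0 := by
  rcases hf.val a ha with h | h <;> rw [h] <;> norm_num

/-- the key lemma -/
theorem Sgn.key {f : ℕ → ℤ} (hf : Sgn f) (F : ℤ) (P M : ℕ) (hP : 1 ≤ P)
    (hc : ∀ m, P ≤ m → m < P + M → f m = F) (a : ℕ) (ha : 1 ≤ a) (haM : P ≤ a * (M - a)) :
    f a = f (a + 1) := by
  obtain ⟨q, hq1, hq2⟩ : ∃ q, q * a < P ∧ P ≤ (q + 1) * a := by
    refine ⟨(P - 1) / a, ?_, ?_⟩
    · have := Nat.div_mul_le_self (P - 1) a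
      omega
    · have h1 := Nat.lt_div_mul_add (a := P - 1) (b := a) (by omega)
      rw [add_mul, one_mul]
      omega
  by_cases hcase : (q + 1) * (a + 1) < P + M
  · have h1 : f ((q + 1) * a) = F := hc _ hq2 (by nlinarith)
    have h2 : f ((q + 1) * (a + 1)) = F := hc _ (by nlinarith) hcase
    rw [hf.mul _ _ (by omega) (by omega)] at h1 h2
    have h3 : f (q + 1) * f a = f (q + 1) * f (a + 1) := by rw [h1, h2]
    exact mul_left_cancel₀ (hf.ne (by omega)) h3
  · exfalso
    have h1 : (q + 1) * (a + 1) = q * a + q + a + 1 := by ring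
    have h2 : M - a ≤ q := by omega
    have h3 : a * (M - a) ≤ a * q := Nat.mul_le_mul_left a h2
    have h4 : a * q = q * a := Nat.mul_comm a q
    omega

/-- a function with equal neighbours is constant on an interval -/
theorem const_of_step {f : ℕ → ℤ} (A B : ℕ) (h : ∀ a, A ≤ a → a < B → f a = f (a + 1)) :
    ∀ m, A ≤ m → m ≤ B → f m = f A := by
  intro m hm hmB
  induction m, hm using Nat.le_induction with
  | base => rfl
  | succ m hm ih => rw [← h m hm (by omega), ih (by omega)]

/-- Theorem 1 of the note -/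
theorem Sgn.stage1 {f : ℕ → ℤ} (hf : Sgn f) (n : ℕ) (hn : 2 ≤ n) (F : ℤ)
    (hc : ∀ m, n ^ 2 - n ≤ m → m ≤ n ^ 2 + n → f m = F) : f 2 = 1 ∧ f 3 = 1 := by
  -- the largest h with h (h + 1) ≤ 2 n
  obtain ⟨h, h1, h2⟩ : ∃ h, h * (h + 1) ≤ 2 * n ∧ 2 * n < (h + 1) * (h + 2) := by
    have hex : ∃ k, 2 * n < (k + 1) * (k + 2) := ⟨2 * n, by nlinarith⟩
    classical
    rcases hk : Nat.find hex with _ | k
    · have := Nat.find_spec hex
      rw [hk] at this
      omega
    · refine ⟨k + 1, ?_, ?_⟩
      · have := Nat.find_min hex (m := k) (by omega)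
        push Not at this
        linarith
      · have := Nat.find_spec hex
        rw [hk] at this
        exact this
  have hh1 : 1 ≤ h := by
    rcases Nat.eq_zero_or_pos h with rfl | h0
    · omega
    · exact h0
  have hhn : h < n := by
    by_contra hcon
    push Not at hcon
    have : n * (n + 1) ≤ h * (h + 1) := Nat.mul_le_mul hcon (by omega)
    nlinarith
  obtain ⟨r, rfl⟩ : ∃ r, n = h + 1 + r := ⟨n - (h + 1), by omega⟩
  set n := h + 1 + r with hnr
  have hnn : n ≤ n ^ 2 := by nlinarith
  -- first level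
  have hstep1 : ∀ a, n - h ≤ a → a < n + h + 2 → f a = f (a + 1) := by
    intro a ha1 ha2
    refine hf.key F (n ^ 2 - n) (2 * n + 1) ?_ ?_ a (by omega) ?_
    · have : 2 * n ≤ n ^ 2 := by nlinarith
      omega
    · intro m hm1 hm2
      exact hc m hm1 (by omega)
    · -- a (2 n + 1 - a) ≥ n ^ 2 - n
      have ha3 : a ≤ 2 * n + 1 := by omega
      obtain ⟨c, hcdef⟩ : ∃ c, 2 * n + 1 = a + c := ⟨2 * n + 1 - a, by omega⟩
      have e1 : 2 * n + 1 - a = c := by omega
      rw [e1]
      have hi : n ^ 2 ≤ a * c + n := by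
        rcases Nat.lt_or_ge n a with hlt | hge
        · obtain ⟨s, hs⟩ : ∃ s, a = n + 1 + s := ⟨a - n - 1, by omega⟩
          have hs2 : s ≤ h := by omega
          have hcs : c + s = n := by omega
          have : s * (s + 1) ≤ 2 * n := le_trans (Nat.mul_le_mul hs2 (by omega)) h1
          rw [hs]
          nlinarith
        · obtain ⟨s, hs⟩ : ∃ s, n = a + s := ⟨n - a, by omega⟩
          have hs2 : s ≤ h := by omega
          have hcs : c = n + 1 + s := by omega
          have : s * (s + 1) ≤ 2 * n := le_trans (Nat.mul_le_mul hs2 (by omega)) h1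
          rw [hcs]
          nlinarith
      omega
  have hconst1 := const_of_step (n - h) (n + h + 2) hstep1
  -- second level
  obtain ⟨A, hA1, hA2⟩ : ∃ A, 4 * A ≤ 2 * h + 3 ∧ 2 * h + 3 < 4 * A + 4 :=
    ⟨(2 * h + 3) / 4, by omega, by omega⟩
  have hA0 : 1 ≤ A := by omega
  have hstep2 : ∀ a, A ≤ a → a < 3 * A → f a = f (a + 1) := by
    intro a ha1 ha2
    refine hf.key (f (n - h)) (n - h) (2 * h + 3) (by omega) ?_ a (by omega) ?_
    · intro m hm1 hm2
      exact hconst1 m hm1 (by omega)
    · obtain ⟨c, hcdef⟩ : ∃ c, 2 * h + 3 = a + c := ⟨2 * h + 3 - a, by omega⟩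
      have e1 : 2 * h + 3 - a = c := by omega
      rw [e1]
      have hcA : A + 1 ≤ c := by omega
      -- a c ≥ A (2 h + 3 - A)
      have hac : A * (2 * h + 3) ≤ a * c + A * A := by
        obtain ⟨s, hs⟩ : ∃ s, a = A + s := ⟨a - A, by omega⟩
        rw [hcdef, hs]
        nlinarith
      have h3 : 2 * n ≤ h * h + 3 * h + 1 := by
        have : (h + 1) * (h + 2) = h * h + 3 * h + 2 := by ring
        omega
      have h4 : h * (2 * h + 3) ≤ 2 * A * (2 * h + 3) := Nat.mul_le_mul_right _ (by omega)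
      have h5 : h * (2 * h + 3) = 2 * (h * h) + 3 * h := by ring
      have h5' : 2 * A * (2 * h + 3) = 2 * (A * (2 * h + 3)) := by ring
      have h6 : A * (4 * A) ≤ A * (2 * h + 3) := Nat.mul_le_mul_left _ hA1
      have h6' : A * (4 * A) = 4 * (A * A) := by ring
      have h8 : h ≤ h * h := Nat.le_mul_self h
      rw [h5, h5'] at h4
      rw [h6'] at h6
      generalize a * c = Y at *
      generalize A * (2 * h + 3) = X at *
      generalize A * A = Z at *
      generalize h * h = H at *
      omega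
  have hconst2 := const_of_step A (3 * A) hstep2
  have e2 : f (2 * A) = f A := hconst2 _ (by omega) (by omega)
  have e3 : f (3 * A) = f A := hconst2 _ (by omega) (by omega)
  rw [hf.mul _ _ (by norm_num) (by omega)] at e2 e3
  have hne := hf.ne (a := A) (by omega)
  exact ⟨mul_right_cancel₀ hne (by rw [e2, one_mul]), mul_right_cancel₀ hne (by rw [e3, one_mul])⟩

end Pool.Agent.Work.MP_a8fbd7_nt.PAR
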